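import Pool.Agent.R284.AS.Stmt

set_option autoImplicit false

namespace Pool.Agent.Results.MP_4f1eb4_an.AsplundPositiveIndex

open Pool.Agent.R284.AS.Stmt

/-- Full answer of Q1, for real and complex scalars: if `n(X) > 0` and the compact operators form
an M-ideal in all bounded operators on `X` under the numerical radius norm, then every separable
closed subspace of `X` has a separable dual. -/
theorem result {𝕜 : Type*} [RCLike 𝕜] {X : Type*} [NormedAddCommGroup X] [NormedSpace 𝕜 X]
    [CompleteSpace X] (hn : 0 < numIndex 𝕜 X) (hM : CompactMIdeal 𝕜 X) : Asplund 𝕜 X :=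
  main 𝕜 X hn hM

end Pool.Agent.Results.MP_4f1eb4_an.AsplundPositiveIndex
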